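import Mathlib

/-!
A map between spaces with nondegenerate forms and similitudes whose image contains or avoids every
generalised eigenspace.
-/

set_option autoImplicit false

namespace Pool.Agent.LibSS37

open Module

/-- A nonzero functional `ψ` with `ψ (f x) = b * ψ x` does not vanish on the generalised eigenspace. -/
theorem exists_gen {K V : Type*} [Field K] [AddCommGroup V] [Module K V] [FiniteDimensional K V]
    (f : Module.End K V) (b : K) (ψ : V →ₗ[K] K) (h : ∀ x, ψ (f x) = b * ψ x) {x₀ : V}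
    (h0 : ψ x₀ ≠ 0) : ∃ x, (∃ k : ℕ, ((f - b • (1 : Module.End K V)) ^ k) x = 0) ∧ ψ x ≠ 0 := by
  have h1 := LinearMap.isCompl_iSup_ker_pow_iInf_range_pow (f - b • (1 : Module.End K V))
  have h2 : x₀ ∈ (⨆ n : ℕ, LinearMap.ker ((f - b • (1 : Module.End K V)) ^ n)) ⊔
      ⨅ n : ℕ, LinearMap.range ((f - b • (1 : Module.End K V)) ^ n) := by
    rw [h1.sup_eq_top]
    exact Submodule.mem_top
  obtain ⟨y, hy, z, hz, hyz⟩ := Submodule.mem_sup.1 h2
  have h3 : z ∈ LinearMap.range ((f - b • (1 : Module.End K V)) ^ 1) :=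
    (Submodule.mem_iInf _).1 hz 1
  obtain ⟨w, hw⟩ := h3
  have h4 : ψ z = 0 := by
    rw [← hw, pow_one]
    simp [h w]
  refine ⟨y, ?_, ?_⟩
  · have hdir : Directed (· ≤ ·) fun n : ℕ => LinearMap.ker ((f - b • (1 : Module.End K V)) ^ n) := by
      apply Monotone.directed_le
      intro m n hmn x hx
      rw [LinearMap.mem_ker] at hx ⊢
      obtain ⟨d, rfl⟩ := Nat.exists_eq_add_of_le hmn
      rw [add_comm, pow_add, Module.End.mul_apply, hx, map_zero]
    obtain ⟨k, hk⟩ := (Submodule.mem_iSup_of_directed _ hdir).1 hy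
    exact ⟨k, hk⟩
  · intro h5
    apply h0
    rw [← hyz, map_add, h5, h4, add_zero]

theorem pow_intertwine {K V W : Type*} [Field K] [AddCommGroup V] [Module K V] [AddCommGroup W]
    [Module K W] (F : Module.End K V) (G : Module.End K W) (ρ : V →ₗ[K] W)
    (h : ∀ x, G (ρ x) = ρ (F x)) (b : K) (k : ℕ) (x : V) :
    ((G - b • (1 : Module.End K W)) ^ k) (ρ x) = ρ (((F - b • (1 : Module.End K V)) ^ k) x) := by
  induction k generalizing x with
  | zero => simp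
  | succ k ih =>
    rw [pow_succ, pow_succ, Module.End.mul_apply, Module.End.mul_apply]
    have h1 : (G - b • (1 : Module.End K W)) (ρ x) = ρ ((F - b • (1 : Module.End K V)) x) := by
      simp [h x]
    rw [h1, ih]

variable {K T₁ T₂ : Type*} [Field K] [IsAlgClosed K] [AddCommGroup T₁] [Module K T₁]
  [FiniteDimensional K T₁] [AddCommGroup T₂] [Module K T₂] [FiniteDimensional K T₂]

theorem key {c : K} (hc : c ≠ 0) (F₁ : Module.End K T₁) (F₂ : Module.End K T₂) (ρ : T₁ →ₗ[K] T₂)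
    (hF : ∀ x, F₂ (ρ x) = ρ (F₁ x)) (B₁ : T₁ →ₗ[K] T₁ →ₗ[K] K) (B₂ : T₂ →ₗ[K] T₂ →ₗ[K] K)
    (hs₁ : ∀ x y, B₁ x y = B₁ y x)
    (hB₁ : ∀ x y, B₁ (F₁ x) (F₁ y) = c * B₁ x y) (hB₂ : ∀ x y, B₂ (F₂ x) (F₂ y) = c * B₂ x y)
    (hn₁ : ∀ y, (∀ x, B₁ x y = 0) → y = 0) (hn₂ : ∀ y, (∀ x, B₂ x y = 0) → y = 0)
    (hk : ∀ y, ρ y = 0 → (∀ x, ρ x = 0 → B₁ x y = 0) → y = 0)
    (he : ∀ b : K, (∀ y, (∃ k : ℕ, ((F₂ - b • (1 : Module.End K T₂)) ^ k) y = 0) → ∃ x, ρ x = y) ∨
      ∀ x, (∃ k : ℕ, ((F₂ - b • (1 : Module.End K T₂)) ^ k) (ρ x) = 0) → ρ x = 0)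
    {u : T₁} (hu : ∀ z, B₂ (ρ z) (ρ u) = 0) : ρ u = 0 := by
  by_contra hne
  -- the similitudes are injective
  have inj₁ : ∀ x, F₁ x = 0 → x = 0 := by
    intro x hx
    apply hn₁
    intro y
    have h1 := hB₁ y x
    rw [hx, map_zero] at h1
    exact (mul_eq_zero.1 h1.symm).resolve_left hc
  have inj₂ : ∀ x, F₂ x = 0 → x = 0 := by
    intro x hx
    apply hn₂
    intro y
    have h1 := hB₂ y x
    rw [hx, map_zero] at h1
    exact (mul_eq_zero.1 h1.symm).resolve_left hc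
  have surj₁ : Function.Surjective F₁ := by
    rw [← LinearMap.injective_iff_surjective]
    exact (injective_iff_map_eq_zero F₁).2 inj₁
  -- the radical of the form on the image
  let R : Submodule K T₂ :=
    { carrier := {v | v ∈ LinearMap.range ρ ∧ ∀ z, B₂ (ρ z) v = 0}
      add_mem' := by
        rintro v w ⟨hv, hv'⟩ ⟨hw, hw'⟩
        refine ⟨Submodule.add_mem _ hv hw, fun z => ?_⟩
        rw [map_add, hv', hw', add_zero]
      zero_mem' := ⟨Submodule.zero_mem _, fun z => map_zero _⟩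
      smul_mem' := by
        rintro a v ⟨hv, hv'⟩
        refine ⟨Submodule.smul_mem _ a hv, fun z => ?_⟩
        rw [map_smul, hv', smul_zero] }
  have hRF : ∀ v ∈ R, F₂ v ∈ R := by
    rintro v ⟨⟨x, rfl⟩, hv⟩
    refine ⟨⟨F₁ x, (hF x).symm⟩, fun z => ?_⟩
    obtain ⟨z', rfl⟩ := surj₁ z
    rw [← hF, hB₂, hv, mul_zero]
  have hne' : Nontrivial R := by
    refine ⟨⟨⟨ρ u, ⟨u, rfl⟩, hu⟩, 0, fun h => hne ?_⟩⟩
    exact congrArg Subtype.val h
  obtain ⟨a, ha⟩ := Module.End.exists_eigenvalue (F₂.restrict hRF)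
  obtain ⟨⟨v, hvR⟩, hv⟩ := ha.exists_hasEigenvector
  have hv0 : v ≠ 0 := fun h => hv.2 (Subtype.ext h)
  have hva : F₂ v = a • v := by
    have h1 := hv.apply_eq_smul
    exact congrArg Subtype.val h1
  have ha0 : a ≠ 0 := by
    rintro rfl
    rw [zero_smul] at hva
    exact hv0 (inj₂ v hva)
  obtain ⟨⟨w, hw⟩, hvz⟩ := hvR
  -- the projection to the kernel
  obtain ⟨p, hp0, hp⟩ : ∃ p, ρ p = 0 ∧ ∀ y, ρ y = 0 → B₁ y (w - p) = 0 := by
    let Φ : LinearMap.ker ρ →ₗ[K] Module.Dual K (LinearMap.ker ρ) :=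
      B₁.domRestrict₁₂ (LinearMap.ker ρ) (LinearMap.ker ρ)
    have hΦ : ∀ x y : LinearMap.ker ρ, Φ x y = B₁ x y := fun _ _ => rfl
    have hinj : Function.Injective Φ := by
      refine (injective_iff_map_eq_zero Φ).2 fun x hx => ?_
      apply Subtype.ext
      apply hk x x.2
      intro y hy
      have h1 := LinearMap.congr_fun hx ⟨y, hy⟩
      rw [hs₁, ← hΦ x ⟨y, hy⟩, h1]
      rfl
    have hsurj : Function.Surjective Φ :=
      (LinearMap.injective_iff_surjective_of_finrank_eq_finrank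
        (Subspace.dual_finrank_eq).symm).1 hinj
    obtain ⟨p, hp⟩ := hsurj ((B₁ w).domRestrict (LinearMap.ker ρ))
    refine ⟨p, p.2, fun y hy => ?_⟩
    have h1 := LinearMap.congr_fun hp ⟨y, hy⟩
    have h2 : B₁ (p : T₁) y = B₁ w y := h1
    rw [hs₁, map_sub, LinearMap.sub_apply, h2, sub_self]
  set m := w - p with hm
  have hρm : ρ m = v := by rw [hm, map_sub, hp0, sub_zero, hw]
  have hm1 : F₁ m = a • m := by
    rw [← sub_eq_zero]
    apply hk
    · rw [map_sub, ← hF, hρm, hva, map_smul, hρm, sub_self]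
    · intro y hy
      obtain ⟨y', rfl⟩ := surj₁ y
      have h1 : ρ y' = 0 := by
        apply inj₂
        rw [hF, hy]
      rw [map_sub, hB₁, hp y' h1, mul_zero, map_smul, hp _ hy, smul_zero, sub_zero]
  have hm0 : m ≠ 0 := by
    rintro h
    apply hv0
    rw [← hρm, h, map_zero]
  set b := c / a with hb
  have hf1 : ∀ x, B₁ (F₁ x) m = b * B₁ x m := by
    intro x
    have h1 := hB₁ x m
    rw [hm1, map_smul, smul_eq_mul] at h1
    rw [hb, div_mul_eq_mul_div, eq_div_iff ha0, mul_comm, h1]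
  have hf2 : ∀ x, B₂ (F₂ x) v = b * B₂ x v := by
    intro x
    have h1 := hB₂ x v
    rw [hva, map_smul, smul_eq_mul] at h1
    rw [hb, div_mul_eq_mul_div, eq_div_iff ha0, mul_comm, h1]
  obtain ⟨x₀, hx₀⟩ : ∃ x₀, B₁ x₀ m ≠ 0 := by
    by_contra h
    push Not at h
    exact hm0 (hn₁ m h)
  obtain ⟨x, ⟨k, hxk⟩, hx⟩ := exists_gen F₁ b (B₁.flip m) (fun x => hf1 x) (x₀ := x₀) hx₀
  have hρx : ρ x ≠ 0 := fun h => hx (hp x h)
  rcases he b with h | h
  · -- the eigenspace is in the image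
    obtain ⟨y₀, hy₀⟩ : ∃ y₀, B₂ y₀ v ≠ 0 := by
      by_contra h
      push Not at h
      exact hv0 (hn₂ v h)
    obtain ⟨y, hy, hy1⟩ := exists_gen F₂ b (B₂.flip v) (fun x => hf2 x) (x₀ := y₀) hy₀
    obtain ⟨z, rfl⟩ := h y hy
    exact hy1 (hvz z)
  · exact hρx (h x ⟨k, by rw [pow_intertwine F₁ F₂ ρ hF, hxk, map_zero]⟩)

end Pool.Agent.LibSS37
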