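import Pool.Agent.LibX1.Outer
import Pool.Agent.LibX1C.Cycles
import Pool.Agent.LibSS37.Key

/-!
The row of weight `2` when the eigenvalues of Frobenius (or of another symmetry) on the nondivisorial
part of the second cohomology of the intersections are simple.
-/

set_option autoImplicit false

namespace Pool.Agent.LibSS37

open Pool.Agent.LibX1 Pool.Agent.LibX1C

/-- `T i` is a subspace of `H^2 (Y^(i+1))`, `i ≤ k + 1`, with an endomorphism `Φ` (the Frobenius of `Y`,
or a Frobenius or monodromy operator of a locally constant deformation of `Y`), `rho` maps `T i` to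
`T (i + 1)` and commutes with `Φ`, which multiplies the form `I` on `T i` by `c ≠ 0`, and `I` is
nondegenerate on `T i` (hard Lefschetz for `Y^(i+1)`). `H^2 (Y^(k+1))` is spanned by classes of
divisors, `T k` and the kernel of `rho`, and `rho (T k)` is orthogonal to the classes of divisors.
`lef₀`, `lef`: hard Lefschetz for the generic fibre in degree `i + 2`; the kernel of `rho` on `T i`
modulo `rho (T (i - 1))` is the part of weight `2`, and `ker gamma ⊓ ker rho` on `T i` is the part of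
weight `2 i + 2`. For every `b` the generalised eigenspace of `Φ` in `T (i + 1)` has dimension at
most `1`, or it is contained in `rho (T i)`, or it meets `rho (T i)` only in `0`. -/
structure Simple {q : ℕ} {K H : Type} [Field K] [CharZero K] [AddCommGroup H] [Module K H]
    [Module ℚ H] (Y : Strata q K H) (I : H →ₗ[K] H →ₗ[K] K) (A : ℕ → ℕ → Submodule ℚ H) (k : ℕ)
    (T : ℕ → Submodule K H) (c : K) (Φ : Module.End K H) : Prop where
  ne : c ≠ 0
  split : Y.gr k 2 ≤ Submodule.span K (A k 1 : Set H) ⊔ T k ⊔ LinearMap.ker Y.rho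
  alg : ∀ x ∈ T k, ∀ y ∈ A (k + 1) 1, I (Y.rho x) y = 0
  map : ∀ i ≤ k, ∀ x ∈ T i, Y.rho x ∈ T (i + 1)
  comm : ∀ i ≤ k, ∀ x ∈ T i, Φ (Y.rho x) = Y.rho (Φ x)
  stable : ∀ i ≤ k + 1, ∀ x ∈ T i, Φ x ∈ T i
  form : ∀ i ≤ k + 1, ∀ x ∈ T i, ∀ y ∈ T i, I (Φ x) (Φ y) = c * I x y
  nondeg : ∀ i ≤ k + 1, ∀ y ∈ T i, (∀ x ∈ T i, I x y = 0) → y = 0
  lef₀ : ∀ x ∈ T 0, Y.rho x = 0 → (∀ y ∈ T 0, Y.rho y = 0 → I y x = 0) → x = 0
  lef : ∀ i < k, ∀ x ∈ T (i + 1), Y.rho x = 0 →
    (∀ y ∈ T (i + 1), Y.gamma y = 0 → Y.rho y = 0 → I y x = 0) → ∃ z ∈ T i, Y.rho z = x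
  mult : ∀ i ≤ k, ∀ b : K, Module.finrank K ↥(Φ.maxGenEigenspace b ⊓ T (i + 1)) ≤ 1 ∨
    Φ.maxGenEigenspace b ⊓ T (i + 1) ≤ (T i).map Y.rho ∨
    Φ.maxGenEigenspace b ⊓ (T i).map Y.rho = ⊥

namespace Simple

variable {q : ℕ} {K H : Type} [Field K] [CharZero K] [AddCommGroup H] [Module K H] [Module ℚ H]
  {Y : Strata q K H} {I : H →ₗ[K] H →ₗ[K] K} {A : ℕ → ℕ → Submodule ℚ H} {k : ℕ}
  {T : ℕ → Submodule K H} {c : K} {Φ : Module.End K H}

theorem mult' [FiniteDimensional K H] (h : Simple Y I A k T c Φ) {i : ℕ} (hi : i ≤ k) (b : K) :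
    Φ.maxGenEigenspace b ⊓ T (i + 1) ≤ (T i).map Y.rho ∨
    Φ.maxGenEigenspace b ⊓ (T i).map Y.rho = ⊥ := by
  rcases h.mult i hi b with h1 | h1 | h1
  · by_cases h2 : Φ.maxGenEigenspace b ⊓ (T i).map Y.rho = ⊥
    · exact Or.inr h2
    · left
      have h3 : Φ.maxGenEigenspace b ⊓ (T i).map Y.rho ≤ Φ.maxGenEigenspace b ⊓ T (i + 1) := by
        apply inf_le_inf_left
        rintro _ ⟨x, hx, rfl⟩
        exact h.map i hi x hx
      have h4 : 0 < Module.finrank K ↥(Φ.maxGenEigenspace b ⊓ (T i).map Y.rho) := by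
        rw [Nat.pos_iff_ne_zero]
        intro h5
        exact h2 (Submodule.finrank_eq_zero.1 h5)
      have h5 := Submodule.eq_of_le_of_finrank_le h3 (by omega)
      rw [← h5]
      exact inf_le_right
  · exact Or.inl h1
  · exact Or.inr h1

omit [CharZero K] [Module ℚ H] in
theorem pow_restrict {T : Submodule K H} (hT : ∀ x ∈ T, Φ x ∈ T) (b : K) (k : ℕ) (x : T) :
    ((((Φ.restrict hT) - b • (1 : Module.End K T)) ^ k) x : H) =
      ((Φ - b • (1 : Module.End K H)) ^ k) (x : H) := by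
  have h1 := pow_intertwine (Φ.restrict hT) Φ T.subtype (fun x => rfl) b k x
  exact h1.symm

/-- If the form is nondegenerate on the kernel of `rho` in `T i` then it is nondegenerate on
`rho (T i)`. -/
theorem step [IsAlgClosed K] [FiniteDimensional K H]
    (h : Simple Y I A k T c Φ) (hI : ∀ x y, I x y = I y x) {i : ℕ} (hi : i ≤ k)
    (hker : ∀ x ∈ T i, Y.rho x = 0 → (∀ y ∈ T i, Y.rho y = 0 → I y x = 0) → x = 0)
    {u : H} (hu : u ∈ T i) (h0 : ∀ z ∈ T i, I (Y.rho z) (Y.rho u) = 0) : Y.rho u = 0 := by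
  have key1 := key h.ne (Φ.restrict (h.stable i (by omega)))
    (Φ.restrict (h.stable (i + 1) (by omega)))
    (Y.rho.restrict (h.map i hi))
    (fun x => Subtype.ext (h.comm i hi x x.2))
    (I.domRestrict₁₂ (T i) (T i)) (I.domRestrict₁₂ (T (i + 1)) (T (i + 1)))
    (fun x y => hI x y)
    (fun x y => h.form i (by omega) x x.2 y y.2)
    (fun x y => h.form (i + 1) (by omega) x x.2 y y.2)
    (fun y hy => Subtype.ext (h.nondeg i (by omega) y y.2 fun x hx => hy ⟨x, hx⟩))
    (fun y hy => Subtype.ext (h.nondeg (i + 1) (by omega) y y.2 fun x hx => hy ⟨x, hx⟩))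
    (fun y hy0 hy => Subtype.ext (hker y y.2 (congrArg Subtype.val hy0) fun x hx hx0 =>
      hy ⟨x, hx⟩ (Subtype.ext hx0)))
    (fun b => by
      rcases h.mult' hi b with h1 | h1
      · left
        rintro y ⟨k, hk⟩
        have h2 : (y : H) ∈ Φ.maxGenEigenspace b ⊓ T (i + 1) := by
          refine ⟨(Module.End.mem_maxGenEigenspace _ _ _).2 ⟨k, ?_⟩, y.2⟩
          rw [← pow_restrict (h.stable (i + 1) (by omega)) b k y, hk]
          rfl
        obtain ⟨x, hx, hxy⟩ := h1 h2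
        exact ⟨⟨x, hx⟩, Subtype.ext hxy⟩
      · right
        rintro x ⟨k, hk⟩
        have h2 : Y.rho x ∈ Φ.maxGenEigenspace b ⊓ (T i).map Y.rho := by
          refine ⟨(Module.End.mem_maxGenEigenspace _ _ _).2 ⟨k, ?_⟩, ⟨x, x.2, rfl⟩⟩
          have h3 := pow_restrict (h.stable (i + 1) (by omega)) b k
            ((Y.rho.restrict (h.map i hi)) x)
          rw [hk] at h3
          exact h3.symm
        rw [h1, Submodule.mem_bot] at h2
        exact Subtype.ext h2)
    (u := ⟨u, hu⟩) (fun z => h0 z z.2)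
  exact congrArg Subtype.val key1

/-- The form is nondegenerate on the kernel of `rho` in `T i`. -/
theorem ker_nondeg [IsAlgClosed K] [FiniteDimensional K H]
    (h : Simple Y I A k T c Φ) (hI : ∀ x y, I x y = I y x) {i : ℕ} (hi : i ≤ k) :
    ∀ x ∈ T i, Y.rho x = 0 → (∀ y ∈ T i, Y.rho y = 0 → I y x = 0) → x = 0 := by
  induction i with
  | zero => exact h.lef₀
  | succ i ih =>
    intro x hx hx0 hxy
    have ih' := ih (by omega)
    -- `x` is in the image of `T i`, on which the form is nondegenerate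
    obtain ⟨z, hz, rfl⟩ := h.lef i (by omega) x hx hx0 (fun y hy _ hy0 => hxy y hy hy0)
    apply h.step hI (by omega) ih' hz
    intro u hu
    exact hxy _ (h.map i (by omega) u hu) (Y.rho_rho u)

/-- The nondivisorial part of the row of weight `2`. -/
theorem rho_eq_zero [IsAlgClosed K] [FiniteDimensional K H]
    (h : Simple Y I A k T c Φ) (hI : ∀ x y, I x y = I y x) {u : H} (hu : u ∈ T k)
    (h0 : ∀ z ∈ T k, I (Y.rho z) (Y.rho u) = 0) : Y.rho u = 0 :=
  h.step hI le_rfl (h.ker_nondeg hI le_rfl) hu h0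

/-- The row of weight `2`. -/
theorem row2 [IsScalarTower ℚ K H] [IsAlgClosed K] [FiniteDimensional K H]
    {L : Module.End K H} {n : ℕ} (hn : k + 3 ≤ n)
    (hA : Cycles n Y L I A) (h : Simple Y I A k T c Φ)
    {y : H} (hy : y ∈ Y.gr k 2) (h0 : Y.gamma (Y.rho y) = 0) :
    ∃ f ∈ Y.gr (k + 2) 0, Y.rho f = 0 ∧ Y.gamma f = Y.rho y := by
  have horth : ∀ x, I (Y.rho x) (Y.rho y) = 0 := by
    intro x
    rw [hA.adj, h0, map_zero]
  obtain ⟨y', hy', z', hz', hyz⟩ := Submodule.mem_sup.1 (h.split hy)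
  obtain ⟨D, hD, u, hu, hDu⟩ := Submodule.mem_sup.1 hy'
  have hz0 : Y.rho z' = 0 := hz'
  have hy1 : Y.rho y = Y.rho D + Y.rho u := by
    rw [← hyz, map_add, hz0, add_zero, ← hDu, map_add]
  have hspan : ∀ z ∈ T k, I (Y.rho z) (Y.rho D) = 0 := by
    intro z hz
    have h1 : Submodule.span K (A k 1 : Set H) ≤ LinearMap.ker (I (Y.rho z) ∘ₗ Y.rho) := by
      rw [Submodule.span_le]
      intro d hd
      rw [SetLike.mem_coe, LinearMap.mem_ker, LinearMap.comp_apply]
      exact h.alg z hz _ (hA.rho k 1 d hd)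
    exact h1 hD
  have hρu : Y.rho u = 0 := by
    apply h.rho_eq_zero hA.symm hu
    intro z hz
    have h1 := horth z
    rw [hy1, map_add, hspan z hz, zero_add] at h1
    exact h1
  have hρy : Y.rho y = Y.rho D := by rw [hy1, hρu, add_zero]
  obtain ⟨f, hf, h1, h2⟩ := hA.row2K (t := k) hn hD (fun x _ => by
    rw [← hρy]
    exact horth x)
  refine ⟨f, ?_, h1, by rw [h2, hρy]⟩
  have h3 : Submodule.span K (A (k + 2) 0 : Set H) ≤ Y.gr (k + 2) 0 := by
    rw [Submodule.span_le]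
    intro x hx
    exact hA.deg (k + 2) 0 x hx
  exact h3 hf

end Simple

end Pool.Agent.LibSS37
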